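import Pool.Agent.Helper79.TL.Grp2

/-!
# TL-G2: the codes of the elements
-/

set_option autoImplicit false

namespace Pool.Agent.Helper79.TL.G2

open Pool.Agent.Helper79.TL

lemma ctp_mul : ∀ k : Fin 4, mulN ct (ctp k) = ctp (k + 1) := by decide +kernel

lemma toM_ctp (k : Fin 5) : toM (ctp k) = toM ct ^ (k : ℕ) := by
  have key : ∀ n : ℕ, n < 5 → toM (ctp n) = toM ct ^ n := by
    intro n
    induction n with
    | zero => intro _; rw [pow_zero]; exact toM_cI
    | succ n ih =>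
      intro h
      have h1 := ctp_mul ⟨n, by omega⟩
      rw [pow_succ', ← ih (by omega), ← toM_mulN]
      exact congrArg toM h1.symm
  exact key k k.2

lemma t_val : ((D0.t : U) : Matrix (Fin 6) (Fin 6) (ZMod 3)) = toM ct := rfl

lemma s_val : ((D0.s : U) : Matrix (Fin 6) (Fin 6) (ZMod 3)) = toM cs := rfl

lemma z_val : ((D0.z : U) : Matrix (Fin 6) (Fin 6) (ZMod 3)) = toM cz := rfl

lemma w_val : ((D0.w : U) : Matrix (Fin 6) (Fin 6) (ZMod 3)) = toM cw := rfl

lemma x_val (j : Fin 3) : ((D0.x j : U) : Matrix (Fin 6) (Fin 6) (ZMod 3)) = toM (cx j) := rfl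

lemma pow_fin2 {M : Type} [Monoid M] (g : M) (e : Fin 2) :
    g ^ (e : ℕ) = if e = 0 then 1 else g := by
  fin_cases e
  · simp
  · simp

/-- TL-G2 -/
theorem B_val (b : GPre.BI) : ((D0.B b : U) : Matrix (Fin 6) (Fin 6) (ZMod 3)) = toM (cB b) := by
  rcases b with (_ | k) | ⟨j, k, i⟩
  · exact toM_cI.symm
  · show ((D0.t ^ (k : ℕ) * D0.w : U) : Matrix (Fin 6) (Fin 6) (ZMod 3)) = toM (mulN (ctp k) cw)
    rw [toM_mulN, Units.val_mul, Units.val_pow_eq_pow_val, t_val, w_val, toM_ctp]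
  · show ((D0.t ^ (k : ℕ) * (D0.r (cc j i) * D0.x j) : U) : Matrix (Fin 6) (Fin 6) (ZMod 3)) =
      toM (mulN (ctp k) (mulN (cr (cc j i)) (cx j)))
    rw [toM_mulN, toM_mulN, Units.val_mul, Units.val_mul, Units.val_pow_eq_pow_val, t_val, r_val,
      x_val, toM_ctp]

/-- TL-G2 -/
theorem hel_val (p : GPre.HI) :
    ((D0.hel p : U) : Matrix (Fin 6) (Fin 6) (ZMod 3)) = toM (chel p) := by
  obtain ⟨ε, a, k, e⟩ := p
  show ((D0.z ^ (ε : ℕ) * D0.r a * D0.t ^ (k : ℕ) * D0.s ^ (e : ℕ) : U) :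
      Matrix (Fin 6) (Fin 6) (ZMod 3)) =
    toM (mulN (mulN (mulN (if ε = 0 then cI else cz) (cr a)) (ctp k)) (if e = 0 then cI else cs))
  rw [toM_mulN, toM_mulN, toM_mulN, Units.val_mul, Units.val_mul, Units.val_mul,
    Units.val_pow_eq_pow_val, Units.val_pow_eq_pow_val, Units.val_pow_eq_pow_val, t_val, r_val,
    s_val, z_val, toM_ctp, pow_fin2, pow_fin2]
  congr 1
  · congr 2
    split_ifs
    · exact toM_cI.symm
    · rfl
  · split_ifs
    · exact toM_cI.symm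
    · rfl

end Pool.Agent.Helper79.TL.G2
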