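import Pool.Agent.Helper28.TL.G1a
import Pool.Agent.Helper23.TL.G2

/-!
# TL-G6: injectivity
-/

set_option autoImplicit false

namespace Pool.Agent.Helper79.TL.G6

open Pool.Agent.Helper79.TL

lemma en_lt (n k : ℕ) : en n k < 3 := Nat.mod_lt _ (by norm_num)

lemma ds_en (m n : ℕ) : ds (en m) n = m % 3 ^ n := by
  induction n with
  | zero => rw [ds_zero, pow_zero, Nat.mod_one]
  | succ n ih =>
    have h : en m n % 3 = m / 3 ^ n % 3 := Nat.mod_eq_of_lt (en_lt _ _)
    rw [ds_succ, ih, h, pow_succ, Nat.mod_mul]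

lemma cast_inj3 {a b : ℕ} (ha : a < 3) (hb : b < 3) (h : (a : ZMod 3) = (b : ZMod 3)) : a = b := by
  have h1 : a % 3 = b % 3 := (ZMod.natCast_eq_natCast_iff a b 3).1 h
  omega

lemma toM_inj {m n : ℕ} (hm : m < 3 ^ 36) (hn : n < 3 ^ 36) (h : toM m = toM n) : m = n := by
  have key : ∀ k < 36, en m k = en n k := by
    intro k hk
    have h1 := congrFun (congrFun h ⟨k / 6, by omega⟩) ⟨k % 6, Nat.mod_lt _ (by norm_num)⟩
    have h2 : 6 * (k / 6) + k % 6 = k := by omega
    simp only [toM, h2] at h1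
    exact cast_inj3 (en_lt _ _) (en_lt _ _) h1
  have key2 : ∀ j ≤ 36, ds (en m) j = ds (en n) j := by
    intro j
    induction j with
    | zero => intro _; rfl
    | succ j ih =>
      intro hj
      rw [ds_succ, ds_succ, ih (by omega), key j (by omega)]
  have h3 := key2 36 le_rfl
  rw [ds_en, ds_en, Nat.mod_eq_of_lt hm, Nat.mod_eq_of_lt hn] at h3
  exact h3

/-- the code of the last column -/
def colc (n : ℕ) : ℕ :=
  en n 5 + 3 * en n 11 + 9 * en n 17 + 27 * en n 23 + 81 * en n 29 + 243 * en n 35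

/-- the code of the negative of the last column -/
def ncol (n : ℕ) : ℕ :=
  (3 - en n 5) % 3 + 3 * ((3 - en n 11) % 3) + 9 * ((3 - en n 17) % 3) +
    27 * ((3 - en n 23) % 3) + 81 * ((3 - en n 29) % 3) + 243 * ((3 - en n 35) % 3)

/-- the code of the last column up to sign -/
def keyc (n : ℕ) : ℕ := if colc n ≤ ncol n then colc n else ncol n

/-- the codes of the last columns of the representatives -/
def lK : List ℕ :=
  [243, 1, 3, 9, 27, 81, 331, 413, 409, 329, 412, 332, 328, 410, 265, 269, 257, 259, 266, 268,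
    256, 260, 309, 321, 285, 291, 312, 318, 282, 294, 441, 477, 369, 387, 450, 468, 360, 396,
    353, 461, 379, 433, 380, 434, 352, 460, 308, 307, 317, 316, 281, 280, 290, 289, 438, 435,
    465, 462, 357, 354, 384, 381, 344, 335, 425, 416, 343, 334, 424, 415, 304, 277, 305, 278,
    301, 274, 302, 275, 426, 345, 429, 348, 417, 336, 420, 339, 156, 123, 120, 159, 132, 147,
    150, 129, 128, 127, 118, 119, 154, 155, 146, 145, 142, 139, 112, 115, 116, 113, 140, 143,
    98, 107, 94, 103, 106, 97, 104, 95, 52, 41, 40, 53, 44, 49, 50, 43]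

lemma lK_ok : ∀ n : Fin 126, lK.getD n 0 = keyc (lB.getD n 0) := by decide +kernel

lemma lK_nodup : lK.Nodup := by decide +kernel

lemma lH_nodup : lH.Nodup := by decide +kernel

lemma lH_col : ∀ n : Fin 320, colc (lH.getD n 0) = 243 ∨ colc (lH.getD n 0) = 486 := by
  decide +kernel

lemma lK_len : lK.length = 126 := by decide +kernel

lemma lH_len : lH.length = 320 := by decide +kernel

lemma iB_lt : ∀ b : GPre.BI, iB b < 126 := by decide +kernel

lemma iH_lt : ∀ p : GPre.HI, iH p < 320 := by decide +kernel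

lemma dB_iB : ∀ b : GPre.BI, dB (iB b) = b := by decide +kernel

lemma dH_iH : ∀ p : GPre.HI, dH (iH p) = p := by decide +kernel

lemma getD_inj {l : List ℕ} (hl : l.Nodup) {N : ℕ} (hN : l.length = N) {i j : ℕ} (hi : i < N)
    (hj : j < N) (h : l.getD i 0 = l.getD j 0) : i = j := by
  rw [← hN] at hi hj
  rw [List.getD_eq_getElem _ _ hi, List.getD_eq_getElem _ _ hj] at h
  exact (List.Nodup.getElem_inj_iff hl).1 h

lemma hcol (p : GPre.HI) : colc (chel p) = 243 ∨ colc (chel p) = 486 := by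
  rw [← G1.lH_ok p]
  exact lH_col ⟨iH p, iH_lt p⟩

lemma mul_col (m h : ℕ) (hh : colc h = 243 ∨ colc h = 486) (i : Fin 6) :
    (toM m * toM h) i 5 = (en m (6 * (i : ℕ) + 5) : ZMod 3) * (en h 35 : ZMod 3) := by
  have h0 := en_lt h 5
  have h1 := en_lt h 11
  have h2 := en_lt h 17
  have h3 := en_lt h 23
  have h4 := en_lt h 29
  have h5 := en_lt h 35
  simp only [colc] at hh
  have e0 : en h 5 = 0 := by omega
  have e1 : en h 11 = 0 := by omega
  have e2 : en h 17 = 0 := by omega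
  have e3 : en h 23 = 0 := by omega
  have e4 : en h 29 = 0 := by omega
  rw [Matrix.mul_apply, Fin.sum_univ_six]
  have f0 : toM h 0 5 = 0 := by
    show ((en h 5 : ℕ) : ZMod 3) = 0
    rw [e0]; rfl
  have f1 : toM h 1 5 = 0 := by
    show ((en h 11 : ℕ) : ZMod 3) = 0
    rw [e1]; rfl
  have f2 : toM h 2 5 = 0 := by
    show ((en h 17 : ℕ) : ZMod 3) = 0
    rw [e2]; rfl
  have f3 : toM h 3 5 = 0 := by
    show ((en h 23 : ℕ) : ZMod 3) = 0
    rw [e3]; rfl
  have f4 : toM h 4 5 = 0 := by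
    show ((en h 29 : ℕ) : ZMod 3) = 0
    rw [e4]; rfl
  rw [f0, f1, f2, f3, f4, mul_zero, mul_zero, mul_zero, mul_zero, mul_zero]
  simp only [add_zero, zero_add]
  rfl

lemma e35 (h : ℕ) (hh : colc h = 243 ∨ colc h = 486) : en h 35 = 1 ∨ en h 35 = 2 := by
  have h0 := en_lt h 5
  have h1 := en_lt h 11
  have h2 := en_lt h 17
  have h3 := en_lt h 23
  have h4 := en_lt h 29
  have h5 := en_lt h 35
  simp only [colc] at hh
  omega

lemma key_eq {m n : ℕ} (h : ∀ i : Fin 6, en m (6 * (i : ℕ) + 5) = en n (6 * (i : ℕ) + 5)) :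
    keyc m = keyc n := by
  have h0 : en m 5 = en n 5 := h 0
  have h1 : en m 11 = en n 11 := h 1
  have h2 : en m 17 = en n 17 := h 2
  have h3 : en m 23 = en n 23 := h 3
  have h4 : en m 29 = en n 29 := h 4
  have h5 : en m 35 = en n 35 := h 5
  have hc : colc m = colc n := by
    simp only [colc, h0, h1, h2, h3, h4, h5]
  have hn : ncol m = ncol n := by
    simp only [ncol, h0, h1, h2, h3, h4, h5]
  rw [keyc, keyc, hc, hn]

lemma key_neg {m n : ℕ}
    (h : ∀ i : Fin 6, en m (6 * (i : ℕ) + 5) = (3 - en n (6 * (i : ℕ) + 5)) % 3) :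
    keyc m = keyc n := by
  have h0 : en m 5 = (3 - en n 5) % 3 := h 0
  have h1 : en m 11 = (3 - en n 11) % 3 := h 1
  have h2 : en m 17 = (3 - en n 17) % 3 := h 2
  have h3 : en m 23 = (3 - en n 23) % 3 := h 3
  have h4 : en m 29 = (3 - en n 29) % 3 := h 4
  have h5 : en m 35 = (3 - en n 35) % 3 := h 5
  have hc : colc m = ncol n := by
    simp only [colc, ncol, h0, h1, h2, h3, h4, h5]
  have inv : ∀ x : ℕ, x < 3 → (3 - (3 - x) % 3) % 3 = x := by
    intro x hx
    omega
  have hn : ncol m = colc n := by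
    simp only [colc, ncol, h0, h1, h2, h3, h4, h5, inv _ (en_lt _ _)]
  simp only [keyc, hc, hn]
  split_ifs <;> omega

lemma step (m n x y : ℕ) (hx : x = 1 ∨ x = 2) (hy : y = 1 ∨ y = 2)
    (h : ∀ i : Fin 6, (en m (6 * (i : ℕ) + 5) : ZMod 3) * (x : ZMod 3) =
      (en n (6 * (i : ℕ) + 5) : ZMod 3) * (y : ZMod 3)) : keyc m = keyc n := by
  have key1 : ∀ a b : ℕ, a < 3 → b < 3 → (a : ZMod 3) * ((2 : ℕ) : ZMod 3) = (b : ZMod 3) *
      ((2 : ℕ) : ZMod 3) → a = b := by
    intro a b ha hb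
    interval_cases a <;> interval_cases b <;> decide
  have key2 : ∀ a b : ℕ, a < 3 → b < 3 → (a : ZMod 3) * ((2 : ℕ) : ZMod 3) = (b : ZMod 3) *
      ((1 : ℕ) : ZMod 3) → a = (3 - b) % 3 := by
    intro a b ha hb
    interval_cases a <;> interval_cases b <;> decide
  have key3 : ∀ a b : ℕ, a < 3 → b < 3 → (a : ZMod 3) * ((1 : ℕ) : ZMod 3) = (b : ZMod 3) *
      ((2 : ℕ) : ZMod 3) → a = (3 - b) % 3 := by
    intro a b ha hb
    interval_cases a <;> interval_cases b <;> decide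
  have key4 : ∀ a b : ℕ, a < 3 → b < 3 → (a : ZMod 3) * ((1 : ℕ) : ZMod 3) = (b : ZMod 3) *
      ((1 : ℕ) : ZMod 3) → a = b := by
    intro a b ha hb
    interval_cases a <;> interval_cases b <;> decide
  rcases hx with rfl | rfl <;> rcases hy with rfl | rfl
  · exact key_eq fun i => key4 _ _ (en_lt _ _) (en_lt _ _) (h i)
  · exact key_neg fun i => key3 _ _ (en_lt _ _) (en_lt _ _) (h i)
  · exact key_neg fun i => key2 _ _ (en_lt _ _) (en_lt _ _) (h i)
  · exact key_eq fun i => key1 _ _ (en_lt _ _) (en_lt _ _) (h i)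

lemma chel_lt (p : GPre.HI) : chel p < 3 ^ 36 := by
  unfold chel mulN
  exact ds_lt _ _

/-- TL-G6 -/
theorem inj0 : Function.Injective (fun p : GPre.BI × GPre.HI => D0.B p.1 * D0.hel p.2) := by
  rintro ⟨b, p⟩ ⟨b', p'⟩ h
  have h : D0.B b * D0.hel p = D0.B b' * D0.hel p' := h
  have hv : toM (cB b) * toM (chel p) = toM (cB b') * toM (chel p') := by
    have h1 := congrArg (fun u : U => (u : Matrix (Fin 6) (Fin 6) (ZMod 3))) h
    simp only [Units.val_mul, G2.B_val, G2.hel_val] at h1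
    exact h1
  have hk : keyc (cB b) = keyc (cB b') := by
    refine step _ _ _ _ (e35 _ (hcol p)) (e35 _ (hcol p')) fun i => ?_
    rw [← mul_col _ _ (hcol p) i, ← mul_col _ _ (hcol p') i, hv]
  have hb : b = b' := by
    rw [← G1.lB_ok b, ← G1.lB_ok b', ← lK_ok ⟨iB b, iB_lt b⟩, ← lK_ok ⟨iB b', iB_lt b'⟩] at hk
    have h2 := getD_inj lK_nodup lK_len (iB_lt b) (iB_lt b') hk
    rw [← dB_iB b, h2, dB_iB]
  subst hb
  have hh : D0.hel p = D0.hel p' := mul_left_cancel h
  have hm : toM (chel p) = toM (chel p') := by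
    rw [← G2.hel_val, ← G2.hel_val, hh]
  have hc := toM_inj (chel_lt p) (chel_lt p') hm
  rw [← G1.lH_ok p, ← G1.lH_ok p'] at hc
  have h3 := getD_inj lH_nodup lH_len (iH_lt p) (iH_lt p') hc
  have hp : p = p' := by rw [← dH_iH p, h3, dH_iH]
  rw [hp]

end Pool.Agent.Helper79.TL.G6
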